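import Mathlib
import Pool.Agent.Lib.helper11.Cyc

open Finset Complex

namespace Pool.Agent.Results.MP_8a3680_nt.Fails

noncomputable def S (p : ℕ) (x : ℂ) : ℂ :=
  ∏ k ∈ Icc 1 ((p - 1) / 2), (x - exp (2 * Real.pi * I * (k : ℂ) ^ 2 / p))

open Pool.Agent.Lib.helper11.Cyc in
theorem result : ¬ ∀ p : ℕ, p.Prime → p % 24 = 13 → ∀ x y : ℕ, 0 < x → 0 < y →
    3 * x ^ 2 + 1 = p * y ^ 2 →
    (∀ x' y' : ℕ, 0 < x' → 0 < y' → 3 * x' ^ 2 + 1 = p * y' ^ 2 → x ≤ x' ∧ y ≤ y') →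
    ‖S p (exp (2 * Real.pi * I / 12))‖ = |x * √3 - y * √p| ∧
    ‖S p (exp (2 * Real.pi * I * 5 / 12))‖ = x * √3 + y * √p := by
  intro h
  obtain ⟨h1, h2⟩ := h 397 (by norm_num) (by norm_num) 23 2 (by norm_num)
    (by norm_num) (by norm_num) (by
      intro x y hx hy e
      have hy2 : 2 ≤ y := by
        by_contra hc
        obtain rfl : y = 1 := by omega
        have : x ≤ 12 := by nlinarith
        interval_cases x <;> norm_num at e
      refine ⟨?_, hy2⟩
      by_contra hc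
      have : x ≤ 22 := by omega
      nlinarith)
  have hθ := Complex.isPrimitiveRoot_exp 4764 (by norm_num)
  set θ := exp (2 * Real.pi * I / (4764 : ℕ)) with hθd
  have e1 : exp (2 * Real.pi * I / 12) = θ ^ 397 := by
    rw [hθd, ← exp_nat_mul]; congr 1; push_cast; ring
  have e2 : exp (2 * Real.pi * I * 5 / 12) = θ ^ 1985 := by
    rw [hθd, ← exp_nat_mul]; congr 1; push_cast; ring
  have e3 : ∀ k : ℕ, exp (2 * Real.pi * I * (k : ℂ) ^ 2 / (397 : ℕ)) = θ ^ (12 * k ^ 2) := by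
    intro k
    rw [hθd, ← exp_nat_mul]; congr 1; push_cast; ring
  simp only [S, e1, e2, e3] at h1 h2
  have : Fact (Nat.Prime 14293) := ⟨by norm_num⟩
  have hg := prim_of 14293 5 4764 (by norm_num) (by decide +kernel) (by decide +kernel)
  have := two_norms_mod (by norm_num) hθ 14293 _ hg (Icc 1 ((397 - 1) / 2)) 397 1985
    (fun k => 12 * k ^ 2) 6350 (by
      rw [h1, h2, sq_abs]
      have a3 : √3 ^ 2 = 3 := Real.sq_sqrt (by norm_num)
      have a7 : √((397 : ℕ) : ℝ) ^ 2 = 397 := Real.sq_sqrt (by norm_num)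
      push_cast at a7 ⊢
      nlinarith)
  revert this
  decide +kernel

end Pool.Agent.Results.MP_8a3680_nt.Fails
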